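import Pool.Agent.Helper61.GT.Goals

/-!
# Project GT: the element `1 - √(1 - t² y²)` (`G_SQ`)
-/

set_option autoImplicit false

namespace Pool.Agent.Helper96.GT

universe u

theorem gSQ : Pool.Agent.Helper61.GT.G_SQ.{u} := by
  intro A _ _ _ y t hy hy1 ht0 ht1
  have hsp : ∀ s ∈ spectrum ℝ y, s * s ≤ 1 := by
    intro s hs
    have h1 : ‖s‖ ≤ 1 := (spectrum.norm_le_norm_mul_of_mem hs).trans (by
      rcases subsingleton_or_nontrivial A with hA | hA
      · have : y = 0 := Subsingleton.elim _ _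
        rw [this, norm_zero, zero_mul]
        exact zero_le_one
      · rw [norm_one, mul_one]
        exact hy1)
    rw [Real.norm_eq_abs, abs_le] at h1
    nlinarith [h1.1, h1.2]
  have hz : ∀ s ∈ spectrum ℝ y, 0 ≤ 1 - t ^ 2 * (s * s) ∧ 0 ≤ t ^ 2 * (s * s) ∧
      t ^ 2 * (s * s) ≤ t ^ 2 := by
    intro s hs
    have h1 := hsp s hs
    have h2 : t ^ 2 ≤ 1 := pow_le_one₀ ht0 ht1
    have h3 : 0 ≤ s * s := mul_self_nonneg s
    have h4 : 0 ≤ t ^ 2 := sq_nonneg t
    refine ⟨by nlinarith, by positivity, by nlinarith⟩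
  have hcont : Continuous fun s : ℝ => √(1 - t ^ 2 * (s * s)) := by fun_prop
  have hcont2 : Continuous fun s : ℝ => 1 - t ^ 2 * (s * s) := by fun_prop
  set c : A := cfc (fun s : ℝ => √(1 - t ^ 2 * (s * s))) y with hc
  have hyy : y * y = cfc (fun s : ℝ => s * s) y := by
    rw [cfc_mul (fun s : ℝ => s) (fun s : ℝ => s) y (by fun_prop) (by fun_prop), cfc_id' ℝ y]
  have hq : 1 - t ^ 2 • (y * y) = cfc (fun s : ℝ => 1 - t ^ 2 * (s * s)) y := by
    rw [cfc_sub (fun _ : ℝ => (1 : ℝ)) (fun s : ℝ => t ^ 2 * (s * s)) y (by fun_prop)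
      (by fun_prop), cfc_const_one ℝ y, cfc_const_mul (t ^ 2) (fun s : ℝ => s * s) y
      (by fun_prop), ← hyy]
  have hcc : c * c = 1 - t ^ 2 • (y * y) := by
    rw [hq, hc, ← cfc_mul _ _ y hcont.continuousOn hcont.continuousOn]
    refine cfc_congr fun s hs => ?_
    exact Real.mul_self_sqrt (hz s hs).1
  have hc1 : c ≤ 1 := by
    refine cfc_le_one _ y fun s hs => ?_
    rw [Real.sqrt_le_one]
    linarith [(hz s hs).2.1]
  have hc0 : 0 ≤ c := cfc_nonneg fun s _ => Real.sqrt_nonneg _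
  have hcsa : IsSelfAdjoint c := cfc_predicate _ y
  have hcomm : c * y = y * c := by
    have h := cfc_commute_cfc (fun s : ℝ => √(1 - t ^ 2 * (s * s))) (fun s : ℝ => s) y
    rw [cfc_id' ℝ y] at h
    exact h
  refine ⟨1 - c, sub_nonneg.2 hc1, sub_le_self _ hc0, ?_, ?_, ?_⟩
  · have h1 : c * c ≤ c := by
      rw [hcc, hq, hc]
      refine cfc_mono (fun s hs => ?_) hcont2.continuousOn hcont.continuousOn
      obtain ⟨h2, h3, -⟩ := hz s hs
      apply Real.le_sqrt_of_sq_le
      nlinarith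
    rw [hcc] at h1
    have h2 : t ^ 2 • (y * y) - (1 - c) = c - (1 - t ^ 2 • (y * y)) := by abel
    rw [← sub_nonneg, h2, sub_nonneg]
    exact h1
  · have h1 : 1 - c = cfc (fun s : ℝ => 1 - √(1 - t ^ 2 * (s * s))) y := by
      rw [cfc_sub (fun _ : ℝ => (1 : ℝ)) _ y (by fun_prop) hcont.continuousOn,
        cfc_const_one ℝ y]
    rw [h1]
    refine norm_cfc_le (sq_nonneg t) fun s hs => ?_
    obtain ⟨h2, h3, h4⟩ := hz s hs
    have h5 : √(1 - t ^ 2 * (s * s)) ≤ 1 := by
      rw [Real.sqrt_le_one]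
      linarith
    have h6 : 1 - t ^ 2 * (s * s) ≤ √(1 - t ^ 2 * (s * s)) := by
      apply Real.le_sqrt_of_sq_le
      nlinarith
    rw [Real.norm_eq_abs, abs_le]
    constructor <;> nlinarith [sq_nonneg t]
  · rw [sub_sub_cancel]
    have hst : star (c + (Complex.I * t) • y) = c - (Complex.I * t) • y := by
      rw [star_add, star_smul, hcsa.star_eq, hy.star_eq]
      simp [sub_eq_add_neg]
    have hsq : ((Complex.I * t) * (Complex.I * t)) • (y * y) = -(t ^ 2 • (y * y)) := by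
      have h1 : (Complex.I * t) * (Complex.I * t) = ((-(t ^ 2) : ℝ) : ℂ) := by
        push_cast
        linear_combination (t : ℂ) ^ 2 * Complex.I_mul_I
      rw [h1, Complex.coe_smul, neg_smul]
    rw [Unitary.mem_iff, hst]
    constructor
    · rw [sub_mul, mul_add, mul_add, smul_mul_assoc, smul_mul_assoc, mul_smul_comm,
        mul_smul_comm, smul_smul, hsq, hcc, hcomm]
      abel
    · rw [add_mul, mul_sub, mul_sub, smul_mul_assoc, smul_mul_assoc, mul_smul_comm,
        mul_smul_comm, smul_smul, hsq, hcc, hcomm]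
      abel

end Pool.Agent.Helper96.GT
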